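import Pool.Agent.H7.GU.Stmts

/-!
Row GC8 of the board `gu8`: pointwise inequalities for the weights.
-/

set_option autoImplicit false

open Finset

namespace Pool.GU7

open Pool.Agent.H23.KT Pool.Agent.H46.KW Pool.KQ Pool.GT7

theorem GC8_ww_hi (p r B : ℕ) (hr : r ≤ p) (h : r ≤ B) :
    ww p r B = ((p : ℝ) + 3) * ((B : ℝ) + 1 - r) / (((p : ℝ) + 3 - r) * ((B : ℝ) + 1)) := by
  unfold ww gg
  rw [if_neg (by omega)]
  have h1 : (r : ℝ) ≤ p := by exact_mod_cast hr
  have h5 : ((p : ℝ) + 3 - r) ≠ 0 := by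
    have : 0 < ((p : ℝ) + 3 - r) := by linarith
    exact this.ne'
  have h6 : ((B : ℝ) + 1) ≠ 0 := by positivity
  push_cast
  field_simp
  ring

theorem GC8_ww_lo (p r B : ℕ) (h : B + 1 ≤ r) : ww p r B = 0 := by
  unfold ww gg
  rw [if_pos h, sub_self]

theorem GC8_desc (B N : ℕ) (h : 4 * B ≤ N) (k : ℕ) :
    4 ^ k * B.descFactorial k ≤ N.descFactorial k := by
  induction k with
  | zero => simp
  | succ k ih =>
    rw [Nat.descFactorial_succ, Nat.descFactorial_succ, pow_succ]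
    calc 4 ^ k * 4 * ((B - k) * B.descFactorial k)
        = (4 * (B - k)) * (4 ^ k * B.descFactorial k) := by ring
      _ ≤ (N - k) * N.descFactorial k := Nat.mul_le_mul (by omega) ih

theorem GC8_choose4 (B N : ℕ) (h : 4 * B ≤ N) (k : ℕ) : 4 ^ k * B.choose k ≤ N.choose k := by
  have h1 := GC8_desc B N h k
  rw [Nat.descFactorial_eq_factorial_mul_choose, Nat.descFactorial_eq_factorial_mul_choose] at h1
  have h2 : k.factorial * (4 ^ k * B.choose k) ≤ k.factorial * N.choose k := by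
    calc k.factorial * (4 ^ k * B.choose k) = 4 ^ k * (k.factorial * B.choose k) := by ring
      _ ≤ _ := h1
  exact Nat.le_of_mul_le_mul_left h2 (Nat.factorial_pos k)

theorem GC8_pow (w : ℕ) : 4 * (w + 3) ≤ 3 * 4 ^ (w + 1) := by
  induction w with
  | zero => norm_num
  | succ w ih =>
    rw [pow_succ]
    omega

theorem GC8_lo (x k n : ℕ) : x.choose (k + 1) + n * x.choose k ≤ (x + n).choose (k + 1) := by
  induction n with
  | zero => simp
  | succ n ih =>
    rw [← add_assoc, Nat.choose_succ_succ]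
    have : x.choose k ≤ (x + n).choose k := Nat.choose_le_choose k (by omega)
    nlinarith

theorem GC8_hi (x k n : ℕ) : (x + n).choose (k + 1) ≤ x.choose (k + 1) + n * (x + n).choose k := by
  induction n with
  | zero => simp
  | succ n ih =>
    rw [← add_assoc, Nat.choose_succ_succ]
    have : (x + n).choose k ≤ (x + n + 1).choose k := Nat.choose_le_choose k (by omega)
    nlinarith

/-- `choose · (k + 1)` is convex. -/
theorem GC8_convex (r q b k : ℕ) (h1 : r ≤ q) (h2 : q ≤ b) :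
    ((b : ℝ) - r) * q.choose (k + 1) ≤
      ((b : ℝ) - q) * r.choose (k + 1) + ((q : ℝ) - r) * b.choose (k + 1) := by
  obtain ⟨m, rfl⟩ := Nat.exists_eq_add_of_le h1
  obtain ⟨n, rfl⟩ := Nat.exists_eq_add_of_le h2
  have a1 : (((r + m).choose (k + 1) : ℕ) : ℝ) ≤
      r.choose (k + 1) + m * (r + m).choose k := by exact_mod_cast GC8_hi r k m
  have a2 : ((r + m).choose (k + 1) : ℝ) + n * (r + m).choose k ≤
      (r + m + n).choose (k + 1) := by exact_mod_cast GC8_lo (r + m) k n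
  have hm : (0 : ℝ) ≤ m := Nat.cast_nonneg m
  have hn : (0 : ℝ) ≤ n := Nat.cast_nonneg n
  have b1 := mul_le_mul_of_nonneg_left a1 hn
  have b2 := mul_le_mul_of_nonneg_left a2 hm
  push_cast
  nlinarith

theorem GC8_two (B N w : ℕ) (h : B ≤ N) : B.choose (w + 1) * N ≤ B * N.choose (w + 1) := by
  rcases Nat.eq_zero_or_pos B with rfl | hB
  · simp
  obtain ⟨B, rfl⟩ : ∃ B', B = B' + 1 := ⟨B - 1, by omega⟩
  obtain ⟨N, rfl⟩ : ∃ N', N = N' + 1 := ⟨N - 1, by omega⟩
  have e1 := Nat.add_one_mul_choose_eq B w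
  have e2 := Nat.add_one_mul_choose_eq N w
  have e3 : B.choose w ≤ N.choose w := Nat.choose_le_choose w (by omega)
  refine Nat.le_of_mul_le_mul_right (c := w + 1) ?_ (Nat.succ_pos w)
  calc (B + 1).choose (w + 1) * (N + 1) * (w + 1)
      = ((B + 1).choose (w + 1) * (w + 1)) * (N + 1) := by ring
    _ = ((B + 1) * B.choose w) * (N + 1) := by rw [e1]
    _ ≤ ((B + 1) * N.choose w) * (N + 1) :=
        Nat.mul_le_mul_right _ (Nat.mul_le_mul_left _ e3)
    _ = (B + 1) * ((N + 1) * N.choose w) := by ring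
    _ = (B + 1) * ((N + 1).choose (w + 1) * (w + 1)) := by rw [e2]
    _ = (B + 1) * (N + 1).choose (w + 1) * (w + 1) := by ring

/-- for `B ≤ r - 1` -/
theorem GC8_small (p w r B : ℕ) (h4 : 4 * r ≤ p + 3) (hB : B + 1 ≤ r) :
    ((w : ℝ) + 3) * B.choose (w + 1) ≤ 3 / 4 * (p + 2).choose (w + 1) := by
  have a1 : 4 ^ (w + 1) * B.choose (w + 1) ≤ (p + 2).choose (w + 1) :=
    GC8_choose4 B (p + 2) (by omega) (w + 1)
  have a2 : 4 * (w + 3) * B.choose (w + 1) ≤ 3 * (p + 2).choose (w + 1) := by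
    calc 4 * (w + 3) * B.choose (w + 1) ≤ 3 * 4 ^ (w + 1) * B.choose (w + 1) :=
          Nat.mul_le_mul_right _ (GC8_pow w)
      _ = 3 * (4 ^ (w + 1) * B.choose (w + 1)) := by ring
      _ ≤ 3 * (p + 2).choose (w + 1) := Nat.mul_le_mul_left _ a1
  have a3 : 4 * ((w : ℝ) + 3) * B.choose (w + 1) ≤ 3 * (p + 2).choose (w + 1) := by
    exact_mod_cast a2
  linarith

theorem GC8_thm : GC8Stmt := by
  intro p w r hP
  obtain ⟨wp, r2, rb⟩ := hP
  have rp : r ≤ p := by omega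
  have h1 : (r : ℝ) ≤ p := by exact_mod_cast rp
  have h2 : (2 : ℝ) ≤ r := by exact_mod_cast r2
  have hPR : 0 < (p : ℝ) + 3 - r := by linarith
  have hc : (1 : ℝ) ≤ (p + 2).choose (w + 1) := by
    exact_mod_cast Nat.choose_pos (by omega : w + 1 ≤ p + 2)
  refine ⟨?_, ?_, ?_⟩
  · intro B hB
    have hB' : (B : ℝ) ≤ p + 2 := by exact_mod_cast hB
    have hB0 : (0 : ℝ) ≤ B := Nat.cast_nonneg B
    rcases Nat.lt_or_ge B r with h | h
    · rw [GC8_ww_lo p r B h]
      have h3 : (B : ℝ) + 1 ≤ r := by exact_mod_cast h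
      have h4 : ((p : ℝ) + 3 - r) * B ≤ ((p : ℝ) + 2 - B) * (2 * ((r : ℝ) - 1) - B) :=
        mul_le_mul (by linarith) (by linarith) hB0 (by linarith)
      linarith
    · rw [GC8_ww_hi p r B rp h]
      have h3 : (r : ℝ) ≤ B := by exact_mod_cast h
      have hq : 0 < (B : ℝ) + 1 := by linarith
      have e1 : ((p : ℝ) + 3 - r) * (((p : ℝ) + 2) * (((p : ℝ) + 3) * ((B : ℝ) + 1 - r) /
          (((p : ℝ) + 3 - r) * ((B : ℝ) + 1))) - B) =
          ((p : ℝ) + 2 - B) * (((p : ℝ) + 3 - r) * B - ((p : ℝ) + 3) * (r - 1)) / ((B : ℝ) + 1) := by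
        field_simp
        ring
      rw [e1, le_div_iff₀ hq]
      rcases Nat.lt_or_ge B (p + 2) with h' | h'
      · have h5 : (B : ℝ) ≤ p + 1 := by
          have : B ≤ p + 1 := by omega
          exact_mod_cast this
        have h6 : ((B : ℝ) - 2 * ((r : ℝ) - 1)) * ((B : ℝ) + 1) ≤
            ((p : ℝ) + 3 - r) * B - ((p : ℝ) + 3) * (r - 1) := by
          have := mul_nonneg (by linarith : (0 : ℝ) ≤ (B : ℝ) - (r - 1))
            (by linarith : (0 : ℝ) ≤ (p : ℝ) + 1 - B)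
          linarith
        calc ((p : ℝ) + 2 - B) * (B - 2 * ((r : ℝ) - 1)) * ((B : ℝ) + 1)
            = ((p : ℝ) + 2 - B) * ((B - 2 * ((r : ℝ) - 1)) * ((B : ℝ) + 1)) := by ring
          _ ≤ _ := mul_le_mul_of_nonneg_left h6 (by linarith)
      · have h5 : (B : ℝ) = p + 2 := by
          have : B = p + 2 := le_antisymm hB h'
          exact_mod_cast this
        have h6 : (p : ℝ) + 2 - B = 0 := by linarith
        rw [h6]
        simp
  · intro B hB
    have := GC8_two B (p + 2) w hB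
    exact_mod_cast this
  · intro B hB
    have hP1 : 0 < (p : ℝ) + 3 := by linarith
    have hP2 : (1 : ℝ) ≤ ((p : ℝ) + 3) ^ 2 := by nlinarith
    rcases Nat.lt_or_ge B r with h | h
    · rw [GC8_ww_lo p r B h]
      have a1 := GC8_small p w r B rb h
      have a2 : 1 / (4 * ((p : ℝ) + 3) ^ 2) ≤ 1 / 4 := by
        rw [div_le_div_iff₀ (by positivity) (by norm_num)]
        linarith
      linarith
    · obtain ⟨s, rfl⟩ : ∃ s, r = s + 1 := ⟨r - 1, by omega⟩
      rw [GC8_ww_hi p (s + 1) B rp h]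
      set c : ℝ := ((p + 2).choose (w + 1) : ℝ) with hcdef
      have hq : 0 < (B : ℝ) + 1 := by positivity
      have h3 : ((s : ℝ) + 1) ≤ B := by exact_mod_cast h
      have h5 : (B : ℝ) ≤ p + 1 := by exact_mod_cast hB
      have cv := GC8_convex (s + 1) (B + 1) (p + 3) (w + 1) (by omega) (by omega)
      have e1 : ((p + 3 : ℕ) : ℝ) * c = ((p + 3).choose (w + 1 + 1) : ℝ) * ((w + 1 + 1 : ℕ) : ℝ) := by
        rw [hcdef]
        exact_mod_cast Nat.add_one_mul_choose_eq (p + 2) (w + 1)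
      have e2 : ((B + 1 : ℕ) : ℝ) * (B.choose (w + 1) : ℝ) =
          ((B + 1).choose (w + 1 + 1) : ℝ) * ((w + 1 + 1 : ℕ) : ℝ) := by
        exact_mod_cast Nat.add_one_mul_choose_eq B (w + 1)
      have e3 : ((s + 1 : ℕ) : ℝ) * (s.choose (w + 1) : ℝ) =
          ((s + 1).choose (w + 1 + 1) : ℝ) * ((w + 1 + 1 : ℕ) : ℝ) := by
        exact_mod_cast Nat.add_one_mul_choose_eq s (w + 1)
      have a1 : ((w : ℝ) + 3) * s.choose (w + 1) ≤ 3 / 4 * c := GC8_small p w (s + 1) s rb le_rfl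
      push_cast at cv e1 e2 e3 h1 h2 hPR ⊢
      set fq : ℝ := ((B + 1).choose (w + 1 + 1) : ℝ)
      set fr : ℝ := ((s + 1).choose (w + 1 + 1) : ℝ)
      set fb : ℝ := ((p + 3).choose (w + 1 + 1) : ℝ)
      set cB : ℝ := (B.choose (w + 1) : ℝ)
      set cs : ℝ := (s.choose (w + 1) : ℝ)
      have hw0 : (0 : ℝ) ≤ w := Nat.cast_nonneg w
      -- multiply the convexity inequality by `(u + 1) u`
      have b1 : ((w : ℝ) + 3) * cB * ((B : ℝ) + 1) * ((p : ℝ) + 3 - (s + 1)) ≤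
          ((p : ℝ) + 2 - B) * (s + 1) * (3 / 4 * c) +
            ((w : ℝ) + 3) * ((B : ℝ) - s) * (((p : ℝ) + 3) * c) := by
        have b2 := mul_le_mul_of_nonneg_left cv
          (mul_nonneg (by linarith : (0 : ℝ) ≤ (w : ℝ) + 3) (by linarith : (0 : ℝ) ≤ (w : ℝ) + 1 + 1))
        have b3 : ((w : ℝ) + 3) * ((w : ℝ) + 1 + 1) * (((p : ℝ) + 3 - (s + 1)) * fq) =
            ((w : ℝ) + 3) * cB * ((B : ℝ) + 1) * ((p : ℝ) + 3 - (s + 1)) := by
          linear_combination (-(((w : ℝ) + 3) * ((p : ℝ) + 3 - (s + 1)))) * e2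
        have b4 : ((w : ℝ) + 3) * ((w : ℝ) + 1 + 1) * (((p : ℝ) + 3 - ((B : ℝ) + 1)) * fr +
            ((B : ℝ) + 1 - (s + 1)) * fb) =
            ((p : ℝ) + 2 - B) * (s + 1) * (((w : ℝ) + 3) * cs) +
              ((w : ℝ) + 3) * ((B : ℝ) - s) * (((p : ℝ) + 3) * c) := by
          linear_combination (-(((w : ℝ) + 3) * ((p : ℝ) + 2 - B))) * e3 -
            ((w : ℝ) + 3) * ((B : ℝ) - s) * e1
        rw [b3, b4] at b2
        have hs0 : (0 : ℝ) ≤ s := Nat.cast_nonneg s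
        have b5 := mul_le_mul_of_nonneg_left a1
          (mul_nonneg (by linarith : (0 : ℝ) ≤ (p : ℝ) + 2 - B) (by linarith : (0 : ℝ) ≤ (s : ℝ) + 1))
        linarith
      have b6 : ((p : ℝ) + 3 - (s + 1)) * ((B : ℝ) + 1) / (4 * ((p : ℝ) + 3) ^ 2) ≤
          1 / 4 * (((p : ℝ) + 2 - B) * (s + 1) * c) := by
        have hs0 : (0 : ℝ) ≤ s := Nat.cast_nonneg s
        have c1 : ((p : ℝ) + 3 - (s + 1)) * ((B : ℝ) + 1) ≤ ((p : ℝ) + 3) ^ 2 := by
          rw [sq]
          exact mul_le_mul (by linarith) (by linarith) hq.le hP1.le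
        have c2 : ((p : ℝ) + 3 - (s + 1)) * ((B : ℝ) + 1) / (4 * ((p : ℝ) + 3) ^ 2) ≤ 1 / 4 := by
          rw [div_le_div_iff₀ (by positivity) (by norm_num)]
          linarith
        have c3 : (1 : ℝ) ≤ ((p : ℝ) + 2 - B) * (s + 1) := by
          have := mul_le_mul (by linarith : (1 : ℝ) ≤ (p : ℝ) + 2 - B)
            (by linarith : (1 : ℝ) ≤ (s : ℝ) + 1) (by norm_num) (by linarith)
          linarith
        have c4 : (1 : ℝ) ≤ ((p : ℝ) + 2 - B) * (s + 1) * c := by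
          have := mul_le_mul c3 hc (by norm_num) (by linarith)
          linarith
        linarith
      have hden : 0 < ((p : ℝ) + 3 - (s + 1)) * ((B : ℝ) + 1) := mul_pos hPR hq
      have key : ((w : ℝ) + 3) * cB * (((p : ℝ) + 3 - (s + 1)) * ((B : ℝ) + 1)) +
          ((p : ℝ) + 3 - (s + 1)) * ((B : ℝ) + 1) / (4 * ((p : ℝ) + 3) ^ 2) ≤
          c * (((p : ℝ) + 3 - (s + 1)) * ((B : ℝ) + 1) +
            ((w : ℝ) + 2) * (((p : ℝ) + 3) * ((B : ℝ) + 1 - (s + 1)))) := by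
        have e4 : c * (((p : ℝ) + 3 - (s + 1)) * ((B : ℝ) + 1) +
            ((w : ℝ) + 2) * (((p : ℝ) + 3) * ((B : ℝ) + 1 - (s + 1)))) =
            ((p : ℝ) + 2 - B) * (s + 1) * c +
              ((w : ℝ) + 3) * ((B : ℝ) - s) * (((p : ℝ) + 3) * c) := by ring
        rw [e4]
        linarith
      have e5 : c * (1 + ((w : ℝ) + 2) * (((p : ℝ) + 3) * ((B : ℝ) + 1 - (s + 1)) /
          (((p : ℝ) + 3 - (s + 1)) * ((B : ℝ) + 1)))) =
          c * (((p : ℝ) + 3 - (s + 1)) * ((B : ℝ) + 1) +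
            ((w : ℝ) + 2) * (((p : ℝ) + 3) * ((B : ℝ) + 1 - (s + 1)))) /
          (((p : ℝ) + 3 - (s + 1)) * ((B : ℝ) + 1)) := by
        field_simp
      rw [e5, le_div_iff₀ hden]
      refine le_trans (le_of_eq ?_) key
      ring

end Pool.GU7
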